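import Pool.Agent.helper11.RPQ.SpecT

/-!
# Row rpq:NBD (MP_07c750_an): the multiplier near the frequency
-/

set_option autoImplicit false

open scoped MatrixGroups ContDiff Topology UpperHalfPlane ComplexConjugate
open UpperHalfPlane MeasureTheory Filter Set

namespace Pool.Agent.RPQ

open Pool.Agent.RS
open Pool.Agent.MS (BA BB st pf gk Dk amk)

theorem NBD_proof (hBU3 : BU3_stmt) (hHFB : HFB_stmt) : NBD_stmt := by
  intro α β η hα hβ hη hη1
  obtain ⟨C, R1, hC, hR1, hB⟩ := hBU3 α β hα hβ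
  obtain ⟨hsc, -, -, hlow⟩ := hHFB
  have t1 : Tendsto (fun R : ℝ => 3 * R ^ (-(η / 2)) + C * R ^ (-(1 / 160) : ℝ)) atTop (𝓝 (3 * 0 + C * 0)) :=
    ((tendsto_rpow_neg_atTop (by linarith : 0 < η / 2)).const_mul 3).add
      ((tendsto_rpow_neg_atTop (by norm_num : (0 : ℝ) < 1 / 160)).const_mul C)
  have t2 : ∀ᶠ R : ℝ in atTop, 3 * R ^ (-(η / 2)) + C * R ^ (-(1 / 160) : ℝ) < 1 :=
    t1.eventually (gt_mem_nhds (by norm_num))
  obtain ⟨R2, hR2⟩ := eventually_atTop.1 t2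
  refine ⟨η / 2, max (max R1 R2) 10000, by linarith, le_trans (by norm_num) (le_max_right _ _), ?_⟩
  intro R w s hR hw1 hw0 hs
  have hR1' : R1 ≤ R := le_trans (le_trans (le_max_left _ _) (le_max_left _ _)) hR
  have hR2' : R2 ≤ R := le_trans (le_trans (le_max_right _ _) (le_max_left _ _)) hR
  have hR4 : 10000 ≤ R := le_trans (le_max_right _ _) hR
  have hRp : 0 < R := by linarith
  have hR11 : 1 ≤ R := by linarith
  have hlp : 0 < R ^ (-η) := Real.rpow_pos_of_pos hRp _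
  have hl1 : R ^ (-η) ≤ 1 := Real.rpow_le_one_of_one_le_of_nonpos hR11 (by linarith)
  have hl8 : R ^ (-(1 / 8) : ℝ) ≤ R ^ (-η) := Real.rpow_le_rpow_of_exponent_le hR11 (by linarith)
  -- the frequency
  have hh : R ^ (η / 2) ≤ R ^ (1 / 2 : ℝ) := Real.rpow_le_rpow_of_exponent_le hR11 (by linarith)
  have hsq : R ^ (1 / 2 : ℝ) ≤ R / 100 := by
    rw [← Real.sqrt_eq_rpow, Real.sqrt_le_left (by linarith)]
    nlinarith
  have hs100 : |s - R| ≤ R / 100 := le_trans hs (le_trans hh hsq)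
  have hsab := abs_le.1 hs100
  have hsp : 0 < s := by linarith
  have hb := hB R s w (R ^ (-η)) hR1' hs100 hw1 hw0 hl8 hl1
  have hb1 := (abs_le.1 hb).1
  rw [hsc α (R ^ (-η)) (s - R) hlp] at hb1
  have hlo := (hlow α hα (R ^ (-η) * (s - R))).2
  set x : ℝ := R ^ (-η) with hx
  set n : ℝ := ‖hF α (x * (s - R))‖ with hn
  have hx2 : (x * (s - R)) ^ 2 ≤ x := by
    have h1 : (s - R) ^ 2 ≤ (R ^ (η / 2)) ^ 2 := by
      rw [← sq_abs (s - R)]
      exact pow_le_pow_left₀ (abs_nonneg _) hs 2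
    have h2 : (R ^ (η / 2)) ^ 2 = R ^ η := by
      rw [← Real.rpow_natCast, ← Real.rpow_mul hRp.le]
      congr 1
      push_cast
      ring
    have h3 : x * R ^ η = 1 := by
      rw [hx, ← Real.rpow_add hRp]
      simp
    have h4 : (x * (s - R)) ^ 2 = x * (x * (s - R) ^ 2) := by ring
    rw [h4]
    have h5 : x * (s - R) ^ 2 ≤ 1 := by
      rw [h2] at h1
      calc x * (s - R) ^ 2 ≤ x * R ^ η := mul_le_mul_of_nonneg_left h1 hlp.le
        _ = 1 := h3
    calc x * (x * (s - R) ^ 2) ≤ x * 1 := mul_le_mul_of_nonneg_left h5 hlp.le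
      _ = x := mul_one x
  have hn1 : 1 - x ≤ n := by linarith
  have hx0 : 0 ≤ 1 - x := by linarith
  have hn2 : (1 - x) ^ 2 ≤ n ^ 2 := pow_le_pow_left₀ hx0 hn1 2
  have hRs : 1 - x ≤ R / s := by
    rw [le_div_iff₀ hsp]
    have h1 : s ≤ R + R ^ (η / 2) := by
      have := (abs_le.1 hs).2
      linarith
    have h2 : R ^ (η / 2) ≤ x * R := by
      have h3 : x * R = R ^ (-η + 1) := by
        rw [hx, Real.rpow_add hRp, Real.rpow_one]
      rw [h3]
      exact Real.rpow_le_rpow_of_exponent_le hR11 (by linarith)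
    have h4 : (1 - x) * s ≤ (1 - x) * (R + R ^ (η / 2)) := mul_le_mul_of_nonneg_left h1 hx0
    have h5 : 0 ≤ x * R ^ (η / 2) := mul_nonneg hlp.le (Real.rpow_nonneg hRp.le _)
    nlinarith
  have hprod : (1 - x) * (1 - x) ^ 2 ≤ R / s * n ^ 2 :=
    mul_le_mul hRs hn2 (sq_nonneg _) (le_trans hx0 hRs)
  have hcube : 1 - 3 * x ≤ (1 - x) * (1 - x) ^ 2 := by
    nlinarith [mul_nonneg hlp.le (mul_nonneg hlp.le (by linarith : 0 ≤ 3 - x))]
  have hy : 3 * x + C * R ^ (-(1 / 32) : ℝ) ≤ R ^ (-(η / 2)) := by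
    have h1 := (hR2 R hR2').le
    have h2 : x = R ^ (-(η / 2)) * R ^ (-(η / 2)) := by
      rw [hx, ← Real.rpow_add hRp]
      congr 1
      ring
    have h3 : R ^ (-(1 / 32) : ℝ) ≤ R ^ (-(η / 2)) * R ^ (-(1 / 160) : ℝ) := by
      rw [← Real.rpow_add hRp]
      exact Real.rpow_le_rpow_of_exponent_le hR11 (by linarith)
    have hp : 0 < R ^ (-(η / 2)) := Real.rpow_pos_of_pos hRp _
    calc 3 * x + C * R ^ (-(1 / 32) : ℝ)
        ≤ 3 * x + C * (R ^ (-(η / 2)) * R ^ (-(1 / 160) : ℝ)) := by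
          have := mul_le_mul_of_nonneg_left h3 hC.le
          linarith
      _ = R ^ (-(η / 2)) * (3 * R ^ (-(η / 2)) + C * R ^ (-(1 / 160) : ℝ)) := by
          rw [h2]; ring
      _ ≤ R ^ (-(η / 2)) * 1 := mul_le_mul_of_nonneg_left h1 hp.le
      _ = R ^ (-(η / 2)) := mul_one _
  linarith

end Pool.Agent.RPQ
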