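import Pool.Agent.helper98.RPQ.SpecR

/-!
# Row rpq:THL (MP_07c750_an): the phases
-/

set_option autoImplicit false

open scoped MatrixGroups ContDiff Topology UpperHalfPlane ComplexConjugate ENNReal
open UpperHalfPlane MeasureTheory Filter Set

namespace Pool.Agent.RPQ

open Pool.Agent.RS
open Pool.Agent.MS (BA BB st pf gk Dk amk)

theorem THL_cont (hGLC : GLC_stmt) (V : ℍ → ℝ) (hV : Continuous V) :
    Continuous (Function.uncurry fun (g : SL(2, ℝ)) (s : ℝ) => V ((g * aM s) • I)) := by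
  have ha : Continuous aM := hGLC.2.2.2.1
  have h1 : Continuous fun p : SL(2, ℝ) × ℝ => p.1 * aM p.2 := continuous_fst.mul (ha.comp continuous_snd)
  have h2 : Continuous fun p : SL(2, ℝ) × ℝ => (p.1 * aM p.2) • (I : ℍ) := h1.smul continuous_const
  exact hV.comp h2

theorem THL_cont1 (hGLC : GLC_stmt) (V : ℍ → ℝ) (hV : Continuous V) (g : SL(2, ℝ)) :
    Continuous (fun s : ℝ => V ((g * aM s) • I)) := by
  have ha : Continuous aM := hGLC.2.2.2.1
  have h1 : Continuous fun s : ℝ => g * aM s := continuous_const.mul ha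
  have h2 : Continuous fun s : ℝ => (g * aM s) • (I : ℍ) := h1.smul continuous_const
  exact hV.comp h2

theorem THL_lin (hGLC : GLC_stmt) (J : ℕ) (χ : Fin J → ℍ → ℝ) (hχ : ∀ j, Continuous (χ j)) (ξ : Fin J → ℝ) (κ t : ℝ) (g : SL(2, ℝ)) :
    th (VV χ ξ) κ t g = ∑ j, ξ j * th (χ j) κ t g := by
  have h0 : ∀ j : Fin J, Continuous (fun s : ℝ => ξ j * χ j ((g * aM s) • I)) := fun j =>
    continuous_const.mul (THL_cont1 hGLC (χ j) (hχ j) g)
  have h1 : ∫ s in (0 : ℝ)..t, ∑ j, ξ j * χ j ((g * aM s) • I) = ∑ j, ∫ s in (0 : ℝ)..t, ξ j * χ j ((g * aM s) • I) :=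
    intervalIntegral.integral_finsetSum (fun j _ => (h0 j).intervalIntegrable 0 t)
  have h2 : th (VV χ ξ) κ t g = κ * ∫ s in (0 : ℝ)..t, ∑ j, ξ j * χ j ((g * aM s) • I) := rfl
  rw [h2, h1, Finset.mul_sum]
  refine Finset.sum_congr rfl fun j _ => ?_
  have h3 : th (χ j) κ t g = κ * ∫ s in (0 : ℝ)..t, χ j ((g * aM s) • I) := rfl
  rw [h3, intervalIntegral.integral_const_mul]
  ring

theorem THL_proof (hVXI : VXI_stmt) (hGLC : GLC_stmt) : THL_stmt := by
  intro Γ J χ hχ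
  obtain ⟨hp, -, -, hvx, -, -, -, -⟩ := hVXI
  have hc : ∀ (j : Fin J) (κ t : ℝ), Continuous (th (χ j) κ t) := by
    intro j κ t
    unfold th
    exact continuous_const.mul (intervalIntegral.continuous_parametric_intervalIntegral_of_continuous'
      (THL_cont hGLC (χ j) (hχ j).1) 0 t)
  have hlin : ∀ (ξ : Fin J → ℝ) (κ t : ℝ) (g : SL(2, ℝ)), th (VV χ ξ) κ t g = ∑ j, ξ j * th (χ j) κ t g :=
    fun ξ κ t g => THL_lin hGLC J χ (fun j => (hχ j).1) ξ κ t g
  refine ⟨?_, hc, ?_, hlin, ?_⟩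
  · intro ξ
    refine ⟨?_, ?_⟩
    · unfold VV
      exact continuous_finsetSum _ fun j _ => continuous_const.mul (hχ j).1
    · intro γ z
      unfold VV
      refine Finset.sum_congr rfl fun j _ => ?_
      rw [(hχ j).2 γ z]
  · intro j κ t N n
    have h1 : (fun p : (SL(2, ℝ) × SL(2, ℝ)) × (Fin n → SL(2, ℝ)) => TH (χ j) κ t N p.1.1 (ic t (vx p.1.1 p.1.2 p.2))) =
        fun p : (SL(2, ℝ) × SL(2, ℝ)) × (Fin n → SL(2, ℝ)) => ∑ i ∈ Finset.range N, th (χ j) κ t (vx p.1.1 p.1.2 p.2 i) := by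
      funext p
      unfold TH
      refine Finset.sum_congr rfl fun i _ => ?_
      have h2 := hp t (vx p.1.1 p.1.2 p.2) i
      have h3 : vx p.1.1 p.1.2 p.2 0 = p.1.1 := rfl
      rw [h3] at h2
      rw [h2]
    rw [h1]
    exact continuous_finsetSum _ fun i _ => (hc j κ t).comp (hvx n i)
  · intro ξ κ t N g b
    unfold TH
    rw [Finset.sum_congr rfl (fun i _ => hlin ξ κ t (pth t g b i)), Finset.sum_comm]
    refine Finset.sum_congr rfl fun j _ => ?_
    rw [Finset.mul_sum]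

end Pool.Agent.RPQ
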