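import Pool.Agent.helper11.RPQ.SpecU
import Pool.Agent.helper62.QU.CA1

/-!
# Row rpq:UCT (MP_07c750_an): the operator is almost a contraction
-/

set_option autoImplicit false

open scoped MatrixGroups ContDiff Topology UpperHalfPlane ComplexConjugate
open UpperHalfPlane MeasureTheory Filter Set

namespace Pool.Agent.RPQ

open Pool.Agent.RS
open Pool.Agent.MS (BA BB st pf gk Dk amk)

theorem UCT_cont {n : WithTop ℕ∞} {φ : ℍ → ℂ} (h : QU.CD n φ) : Continuous φ :=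
  ((QU.CA1 ℂ).1 φ).1 ((QU.CA1 ℂ).2.1 φ 0 n bot_le h)

theorem UCT_proof (hUNF : UNF_stmt) (hF1 : F1_stmt) (hCWB : CWB_stmt) (hSYB : Pool.Agent.MS.SYB_stmt)
    (hGWB : GWB_stmt) (hGFD : GFD_stmt) (hFL0 : FL0_stmt) : UCT_stmt := by
  intro Γ F α β η hΓ hF hα hβ hη hη1
  obtain ⟨R0, hR0, hfr⟩ := hF1 α β hα hβ
  refine ⟨1 / 40, R0, by norm_num, hR0, ?_⟩
  intro R κ V v hR hV hvm hvb hvi
  have hR1 : 1 ≤ R := le_trans hR0 hR
  have hRp : 0 < R := lt_of_lt_of_le one_pos hR1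
  -- the parameters
  have hw0p : 0 < w0 R := Real.rpow_pos_of_pos hRp _
  have hw1p : 0 < w1 R := Real.rpow_pos_of_pos hRp _
  have hw01 : w0 R ≤ 1 := Real.rpow_le_one_of_one_le_of_nonpos hR1 (by norm_num)
  have hw10 : w1 R ≤ w0 R := Real.rpow_le_rpow_of_exponent_le hR1 (by norm_num)
  have hw11 : w1 R ≤ 1 := le_trans hw10 hw01
  have hlp : 0 < R ^ (-η) := Real.rpow_pos_of_pos hRp _
  have hl1 : R ^ (-η) ≤ 1 := Real.rpow_le_one_of_one_le_of_nonpos hR1 (by linarith)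
  have hl8 : R ^ (-(1 / 8) : ℝ) ≤ R ^ (-η) := Real.rpow_le_rpow_of_exponent_le hR1 (by linarith)
  have hT0 : TB (1 / 4) (cw β α (w0 R) (R ^ (-η))) := (hCWB α β _ _ hα hβ hw0p hw01 hlp hl1).2.2.2.2.2.2.1
  have hT1 : TB (1 / 4) (cw β α (w1 R) (R ^ (-η))) := (hCWB α β _ _ hα hβ hw1p hw11 hlp hl1).2.2.2.2.2.2.1
  have hP0 := hFL0.2.1 _ R _ hT0
  have hc0 : Continuous (pk R (cw β α (w0 R) (R ^ (-η)))) := UCT_cont hP0.1
  have hs0 : HasCompactSupport (pk R (cw β α (w0 R) (R ^ (-η)))) := hP0.2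
  have hP1 := hFL0.2.1 _ R _ hT1
  have hc1 : Continuous (pk R (cw β α (w1 R) (R ^ (-η)))) := UCT_cont hP1.1
  have hs1 : HasCompactSupport (pk R (cw β α (w1 R) (R ^ (-η)))) := hP1.2
  set q : ℝ := 1 + R ^ (-(1 / 40) : ℝ) with hq
  have hq0 : 0 ≤ q := by
    have := Real.rpow_pos_of_pos hRp (-(1 / 40) : ℝ)
    rw [hq]; linarith
  have hκ : 0 ≤ q / R := div_nonneg hq0 hRp.le
  have hfr0 : ∀ u : ℍ → ℂ, InvC Γ u → iR F (fun g => ‖Wf (pk R (cw β α (w0 R) (R ^ (-η)))) u g‖ ^ 2) ≤ q / R * nn F u := by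
    intro u hu
    have h1 := hfr Γ F R (w0 R) (R ^ (-η)) hΓ hF hR hw10 le_rfl hl8 hl1 u hu
    rw [div_mul_eq_mul_div, le_div_iff₀ hRp, mul_comm]
    exact h1
  obtain ⟨hsI, hsn⟩ := hSYB Γ F _ _ hΓ hF hc0 hs0 hκ hfr0 v hvm hvb
  set s : ℍ → ℂ := sy Γ F (fun z => conj (pk R (cw β α (w0 R) (R ^ (-η))) z)) v with hsdef
  have h1 := hfr Γ F R (w1 R) (R ^ (-η)) hΓ hF hR le_rfl hw10 hl8 hl1 s hsI
  -- the operator
  have hU := (hUNF Γ F α β η R κ V v hΓ hF hα hβ hη hR1 hV hvm hvb hvi).1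
  have hn : ∀ g, ‖∫ h, stK V κ (tau R) (uk β α η R) g h * v h ∂mG‖ ^ 2 =
      R ^ 2 * ‖Wf (pk R (cw β α (w1 R) (R ^ (-η)))) s (g * aM (tau R))‖ ^ 2 := by
    intro g
    rw [hU g, norm_mul, norm_mul, norm_mul, Complex.norm_exp_ofReal_mul_I, Complex.norm_exp_ofReal_mul_I,
      Complex.norm_real, Real.norm_of_nonneg hRp.le]
    unfold QQ
    ring
  have hWI : InvG Γ (Wf (pk R (cw β α (w1 R) (R ^ (-η)))) s) := (hGWB Γ _ _ hΓ hc1 hs1 hsI).1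
  have htr := ((hGFD Γ F hΓ hF).2 ℝ).1 (fun g => ‖Wf (pk R (cw β α (w1 R) (R ^ (-η)))) s g‖ ^ 2) (aM (tau R)) (by
    intro γ g
    rw [hWI.2 γ g])
  have hL : iR F (fun g => ‖∫ h, stK V κ (tau R) (uk β α η R) g h * v h ∂mG‖ ^ 2) =
      R ^ 2 * qn F (cw β α (w1 R) (R ^ (-η))) R s := by
    unfold qn iR
    rw [← htr, ← integral_const_mul]
    exact integral_congr_ae (Eventually.of_forall fun g => hn g)
  rw [hL]
  have hv0 : 0 ≤ iR F (fun g => ‖v g‖ ^ 2) := by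
    unfold iR
    exact integral_nonneg fun g => sq_nonneg _
  have h2 : R * (R * qn F (cw β α (w1 R) (R ^ (-η))) R s) ≤ R * (q * nn F s) :=
    mul_le_mul_of_nonneg_left h1 hRp.le
  have h3 : q * nn F s ≤ q * (q / R * iR F (fun g => ‖v g‖ ^ 2)) := mul_le_mul_of_nonneg_left hsn hq0
  have h4 : R * (q * nn F s) ≤ R * (q * (q / R * iR F (fun g => ‖v g‖ ^ 2))) := mul_le_mul_of_nonneg_left h3 hRp.le
  calc R ^ 2 * qn F (cw β α (w1 R) (R ^ (-η))) R s = R * (R * qn F (cw β α (w1 R) (R ^ (-η))) R s) := by ring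
    _ ≤ R * (q * (q / R * iR F (fun g => ‖v g‖ ^ 2))) := le_trans h2 h4
    _ = q ^ 2 * iR F (fun g => ‖v g‖ ^ 2) := by
      field_simp
    _ = (1 + R ^ (-(1 / 40 : ℝ))) ^ 2 * iR F (fun g => ‖v g‖ ^ 2) := by rw [hq]

end Pool.Agent.RPQ
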